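import Pool.Agent.Lib.MP_6ef346_pr.Final

/-!
# Longest increasing subsequence of i.i.d. integer samples

For every distribution `p` on the non-negative integers and i.i.d. samples `X₀, X₁, …` with law
`p`, the length `Lₙ` of the longest strictly increasing subsequence of `X₀, …, Xₙ₋₁` satisfies
`Lₙ / fₙ → 1` almost surely, where `f_t = inf_{x ≥ 0} (x + ∑ᵢ t pᵢ / (t pᵢ + x))`.

Strategy. In the stationary version of the discrete Hammersley process the number of particles
and sources gives the upper bound. A strict convexity estimate shows that the exit point of a
maximal path of the stationary process is near the corner, and the contribution of the frequent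
letters near the corner is recovered by a greedy strategy in a short extra time interval; if the
critical source intensity is negligible the greedy strategy alone is optimal. This gives the
matching lower bound for the mean, uniformly in the distribution, and the Efron-Stein inequality
with the Borel-Cantelli lemma gives the almost sure convergence.
-/

set_option autoImplicit false

open MeasureTheory ProbabilityTheory Filter Topology

namespace Pool.Agent.Results.MP_6ef346_pr.AlmostSureLimit

open Pool.Agent.Lib.MP_6ef346_pr

/-- **Positive answer to Q1.** For i.i.d. samples of any distribution `p` on `ℕ`,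
`Lₙ / fₙ → 1` almost surely. -/
theorem result {Ω : Type*} [MeasurableSpace Ω] (μ : Measure Ω) [IsProbabilityMeasure μ]
    (X : ℕ → Ω → ℕ) (hX : ∀ k, Measurable (X k)) (hind : iIndepFun X μ)
    (p : ℕ → ℝ) (hlaw : ∀ k i, μ.real {ω | X k ω = i} = p i) :
    ∀ᵐ ω ∂μ, Tendsto (fun n : ℕ => (lis (fun k => X k ω) n : ℝ) / fRate p n) atTop (𝓝 1) :=
  main_theorem hX hind hlaw

end Pool.Agent.Results.MP_6ef346_pr.AlmostSureLimit
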